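import Pool.Agent.W899.ANS4

set_option autoImplicit false

/-!
# Polynomial value sets recognisable in abstract numeration systems

An abstract numeration system is an infinite regular language `L` over a finite totally ordered
alphabet `A`. If the set `P(ℕ)` of values of a polynomial `P` of degree at least two is
recognisable in it, then the number of words of length `n` in `L` is `O(n ^ (2 deg P))`.

Proof idea: two prefixes of the same length that lead to the same state of the automata give the
same gaps between consecutive elements of `P(ℕ)`, but these gaps are eventually strictly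
increasing. So for all long lengths at most one such prefix has two extensions of that length, and
the number of words of length `n` that represent elements of `P(ℕ)` is `O(n)`.
-/

namespace Pool.Agent.Results.MP_8c22a7_lc.PolynomialGrowth

/-- `w` represents `n` in the numeration system given by `L`: it is the `(n+1)`-st word of `L` in
the genealogical (shortlex) order, i.e. it is in `L` and exactly `n` words of `L` precede it. -/
def Represents {A : Type} [LinearOrder A] (L : Language A) (w : List A) (n : ℕ) : Prop :=
  w ∈ L ∧ {u | u ∈ L ∧ List.Shortlex (· < ·) u w}.ncard = n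

/-- `X` is recognisable in the numeration system given by `L`: the language of the
representations of its elements is regular. -/
def Recognisable {A : Type} [LinearOrder A] (L : Language A) (X : Set ℕ) : Prop :=
  Language.IsRegular {w : List A | ∃ n ∈ X, Represents L w n}

/-- Let `P` be a rational polynomial of degree at least two with `P(ℕ) ⊆ ℕ`, and let `L` be an
infinite regular language over a finite totally ordered alphabet. If `P(ℕ)` is recognisable in the
abstract numeration system given by `L`, then `L` is polynomial: the number of its words of length
`n` is `O(n ^ (2 deg P))`. -/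
theorem result (P : Polynomial ℚ) (hdeg : 2 ≤ P.natDegree)
    (hP : ∀ n : ℕ, ∃ m : ℕ, P.eval (n : ℚ) = m)
    (A : Type) [Fintype A] [LinearOrder A] (L : Language A) (hreg : L.IsRegular)
    (hinf : (L : Set (List A)).Infinite)
    (hrec : Recognisable L {m : ℕ | ∃ n : ℕ, P.eval (n : ℚ) = m}) :
    (fun n : ℕ => ({w : List A | w ∈ L ∧ w.length = n}.ncard : ℝ)) =O[Filter.atTop]
      (fun n : ℕ => (n : ℝ) ^ (2 * P.natDegree)) := by
  choose f hf using hP
  have hX : {m : ℕ | ∃ n : ℕ, P.eval (n : ℚ) = m} = Set.range f := by
    ext m
    constructor
    · rintro ⟨n, hn⟩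
      refine ⟨n, ?_⟩
      rw [hf] at hn
      exact_mod_cast hn
    · rintro ⟨n, rfl⟩
      exact ⟨n, hf n⟩
  have hR : (Pool.Agent.W899.ANS.RR L (Set.range f)) =
      ({w : List A | ∃ n ∈ {m : ℕ | ∃ n : ℕ, P.eval (n : ℚ) = m}, Represents L w n} :
        Language A) := by
    ext w
    rw [hX]
    constructor
    · rintro ⟨h1, h2⟩
      exact ⟨_, h2, h1, rfl⟩
    · rintro ⟨n, h1, h2, h3⟩
      refine ⟨h2, ?_⟩
      have : Pool.Agent.W899.ANS.val L w = n := h3
      rw [this]; exact h1
  obtain ⟨n0, c, M, _, h⟩ := Pool.Agent.W899.ANS.main P hdeg f hf L hreg hinf (by
    rw [hR]; exact hrec)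
  exact Pool.Agent.W899.ANS.bigO P f hf _ n0 c M h

end Pool.Agent.Results.MP_8c22a7_lc.PolynomialGrowth
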